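import Pool.Agent.Helper68.MC.C3B
import Pool.Agent.Helper9.MC.GW

/-!
MP_4042d8_co, section D, part II: row G_C3, unconditional.
-/

namespace Pool.Agent.Helper68.MC

/-- row G_C3 -/
theorem gc3 : Pool.Agent.Helper33.MC.ST_GC3 := st_GC3 Pool.Agent.Helper9.MC.GW.st_GW

end Pool.Agent.Helper68.MC
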