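import Mathlib
import Pool.Agent.Helper33.MC.StG
import Pool.Agent.Helper88.MC.DBas

/-!
MP_4042d8_co, section D, part II, Case 3: the neighbours of `z_a` for a square, and the own slot or
the SPOIL at an `A`-neighbour of the live free mate `h` of a vertex of a square.
-/

set_option autoImplicit false
set_option linter.unusedSectionVars false
set_option linter.unusedVariables false

namespace Pool.Agent.Helper68.MC

open Pool.Agent.Helper27.MC hiding Fr T1 ter
open Pool.Agent.Helper51.MC Pool.Agent.Helper88.MC Pool.Agent.Helper64.MC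
open Pool.Agent.Helper33.MC
open Pool.Agent.Helper79.MC (Sqg)
open Pool.Agent.Helper91.MC.GK (Khb)
open Pool.Agent.Helper96.MC (Td Apx Lx Exm Bd Lp Lpp)
open Pool.Agent.Helper91.MC (mem_Fr mem_T1 mem_Dd sv_ex sv_swap sv_rm sv_Fr sv_T1 sv_tS av_ex tA_or_tQ
  tB_or_tS tA_not_tQ)
open Pool.Agent.Helper88.MC.DB (ctf sv_m sv_a sv_b sv_nf sv_nt av_x av_y av_z tA_nb tB_nb
  tB_not_tS)

variable {V : Type} [Fintype V] [DecidableEq V] {G : SimpleGraph V} [DecidableRel G.Adj]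
  {c : V → Bool} {j : ℕ} {L : V → V → Prop} {H H' : Finset V}

theorem n3_mk (hG : G.IsRegularOfDegree 3) {v x y z : V} (hx : G.Adj v x) (hy : G.Adj v y)
    (hz : G.Adj v z) (xy : x ≠ y) (xz : x ≠ z) (yz : y ≠ z) : N3 G v x y z := by
  have e : ({x, y, z} : Finset V) = G.neighborFinset v := by
    apply Finset.eq_of_subset_of_card_le
    · intro w hw
      simp only [Finset.mem_insert, Finset.mem_singleton] at hw
      rw [SimpleGraph.mem_neighborFinset]
      rcases hw with rfl | rfl | rfl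
      · exact hx
      · exact hy
      · exact hz
    · rw [SimpleGraph.card_neighborFinset_eq_degree, hG v, Finset.card_eq_three.2
        ⟨x, y, z, xy, xz, yz, rfl⟩]
  refine ⟨fun w => ?_, xy, xz, yz⟩
  rw [← SimpleGraph.mem_neighborFinset, ← e]
  simp

theorem bareB {w u : V} (h : tB G c w) : Bare G c H u w := fun y hy => (mu_zero h.2 y hy).elim

section facts

variable (F : FxG G c j L)
include F

theorem frS {f : V} (h : f ∈ Fr G c) : tS G c f := (mem_Fr.1 h).1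

theorem t1S {f : V} (h : f ∈ T1 G c) : tS G c f := (mem_T1.1 h).1

theorem fr_n1 {f : V} (h : f ∈ Fr G c) : f ∉ T1 G c := by
  intro h'
  have h1 := (mem_Fr.1 h).2
  have h2 := (mem_T1.1 h').2
  omega

theorem rmu {x y z : V} (h1 : Rm G c x y) (h2 : Rm G c x z) : y = z := rm_uniq (F.mu1 x) h1 h2

/-- a vertex of `T1` has only one neighbour of type `A` -/
theorem t1A {t x y : V} (ht : t ∈ T1 G c) (hx : tA G c x) (hy : tA G c y) (h1 : G.Adj t x)
    (h2 : G.Adj t y) : x = y := by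
  obtain ⟨m, b, hs⟩ := sv_ex F.reg (t1S F ht) h1 hx.1
  rcases (sv_T1 F.mu1 hs).1 ht with h3 | h3
  · rcases sv_nt hs h2 hy.1 with h4 | h4
    · exact h4.symm
    · exact (tA_not_tQ hy (h4 ▸ h3.2)).elim
  · exact (tA_not_tQ hx h3.1).elim

theorem sq1 {s1 s2 a b v1 v2 za zb : V} (R : Sqg G c s1 s2 a b v1 v2 za zb) : s1 ∈ Fr G c :=
  (sv_Fr F.mu1 R.h1).2 ⟨R.ta, R.tb⟩

theorem sq2 {s1 s2 a b v1 v2 za zb : V} (R : Sqg G c s1 s2 a b v1 v2 za zb) : s2 ∈ Fr G c :=
  (sv_Fr F.mu1 R.h2).2 ⟨R.ta, R.tb⟩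

/-- the slots of one vertex -/
theorem own2 (f : V) : ∃ M : Finset (V × V), M.card ≤ 2 ∧ ∀ x, LS G c H f x → (f, x) ∈ M := by
  by_cases h : ∃ z, LS G c H f z
  · obtain ⟨z, hz⟩ := h
    obtain ⟨m, b, hs⟩ := sv_ex F.reg (frS F hz.1) hz.2.2.1 hz.2.1.1
    refine ⟨{(f, z), (f, b)}, Finset.card_le_two, fun x hx => ?_⟩
    rcases sv_nt hs hx.2.2.1 hx.2.1.1 with e | e <;> subst e <;> simp
  · exact ⟨∅, by simp, fun x hx => (h ⟨x, hx⟩).elim⟩

theorem q0_pn (h : Q0G G c H) : PN G c H := by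
  obtain ⟨u, v, a, w, h1, h2, h3, h4, h5, h6⟩ := h
  refine ⟨u, a, h1, fun x hx hxu => ?_⟩
  have hvu : v ≠ u := h2.ne.symm
  have hwu : w ≠ u := by
    rintro rfl
    exact tB_not_tS h6 (frS F h1.1)
  have hvw : v ≠ w := by
    rintro rfl
    exact tB_not_tS h6 (frS F h3.1)
  have n := n3_mk F.reg h1.2.2.1.symm h4 h5 hvu.symm hwu.symm hvw
  rcases (n.nb x).1 hx with e | e | e
  · exact (hxu e).elim
  · subst e
    exact fun y hy => Or.inl (rmu F hy h2.symm)
  · subst e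
    exact bareB h6

/-- the other neighbours of the third neighbour `z` of a hub of a square -/
theorem w3 (GW : ST_GW) (hQ : ¬ Q0G G c H) {s1 s2 a b v1 v2 z zb : V}
    (R : Sqg G c s1 s2 a b v1 v2 z zb) (hl : LS G c H s1 a) (hz : tB G c z ∨ z = v1) :
    ∃ (LA : Finset (V × V)) (LQ : Finset V), 2 * LA.card + LQ.card ≤ 4 ∧
      (∀ f x, LS G c H f x → G.Adj x z → x ≠ a → f ≠ s1 → f ≠ v1 → (f, x) ∈ LA) ∧
      (∀ t f v' x y t' q q' k k', Khb G c f v' x y t t' q q' k k' → LS G c H f x →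
        Clr G H k → G.Adj k z → f ≠ s1 → f ≠ v1 → t ∈ LQ) := by
  have hb : Bare G c H s1 z := by
    rcases hz with h | h
    · exact bareB h
    · subst h
      exact fun y hy => Or.inl (rmu F hy (sv_rm R.h1).symm)
  obtain ⟨LA, LQ, h1, h2, h3, h4, h5⟩ := GW V G c j L H F s1 v1 a z hl (sv_rm R.h1)
    (av_z R.ha) R.ha.n3.xz.symm hb
  refine ⟨LA, LQ, ?_, h3, h4⟩
  rcases h5 hQ with h6 | ⟨tz, s1', s2', n, n', v1', v2', zb', v', x, y, t, t', q, q', k, k', R',
    l1, l2, hna, K, l3, ck, hkz⟩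
  · exact h6
  exfalso
  have fv : v1' ∈ Fr G c := (sv_Fr F.mu1 K.hu).2 ⟨K.ta, K.tb⟩
  have hnz : G.Adj n z := av_z R'.ha
  have haz : G.Adj a z := av_z R.ha
  -- the type of `k`
  have ck1 : c k = true := by
    have := K.q1.2
    rw [this, K.h1.cb]
  have hkn : k ≠ n := by
    rintro rfl
    exact mu_zero R'.ta.2 q K.q1.symm
  have hka : k ≠ a := by
    rintro rfl
    exact mu_zero R.ta.2 q K.q1.symm
  have N : N3 G z a k n := n3_mk F.reg haz.symm hkz.symm hnz.symm hka.symm hna.symm hkn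
  -- `n` is not `b`
  have nb : n ≠ b := by
    rintro rfl
    rcases (R.hb.n3.nb z).1 hnz with e | e | e
    · exact tB_not_tS tz (e ▸ frS F (sq1 F R))
    · exact tB_not_tS tz (e ▸ frS F (sq2 F R))
    · exact R.zab e
  have nad : ∀ s, (s = s1 ∨ s = s2) → ¬ G.Adj s n := by
    rintro s (e | e) h
    · subst e
      rcases sv_nt R.h1 h R'.ta.1 with e | e
      · exact hna e
      · exact nb e
    · subst e
      rcases sv_nt R.h2 h R'.ta.1 with e | e
      · exact hna e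
      · exact nb e
  have hs1 : G.Adj s1' n := sv_a R'.h1
  by_cases e1 : v1' = v1
  · subst e1
    exact nad s1' (Or.inl (rmu F (sv_rm R'.h1).symm (sv_rm R.h1).symm)) hs1
  by_cases e2 : v1' = v2
  · subst e2
    exact nad s1' (Or.inr (rmu F (sv_rm R'.h1).symm (sv_rm R.h2).symm)) hs1
  have h7 := F.r5 s1 s2 a b v1 v2 z zb v1' v' x y t t' q q' k k' n R K N tz R'.ta e1 e2
  rcases (R'.ha.n3.nb v1').1 h7.symm with e | e | e
  · exact (sv_m R'.h1).ne e.symm
  · exact R'.n12 (e ▸ sv_rm R'.h1)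
  · exact tB_not_tS tz (e ▸ frS F fv)

/-- a live own slot and a SPOIL at the same vertex: Case 2, or impossible because of the
conditions on the sources -/
theorem no_sp {s1 s2 a b v1 h z zb p q : V} (R : Sqg G c s1 s2 a b v1 h z zb)
    (hh : Sv G c h s2 p q) (tp : tA G c p) (tq : tA G c q)
    (hno : ∀ g, Live G c H g → g ≠ h → ¬ G.Adj p g) (hQ2 : ¬ Q2G G c H) (hl : LS G c H h p)
    {f : V} (hs : SpG G c L H p f) : False := by
  obtain ⟨t, g, x, y, m, m', zx, zy, h1, h2, Q, h3, h4, h5, h6, h7⟩ := hs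
  have hF := hl.1
  have hfh : f ≠ h := by
    rintro rfl
    have hg : G.Adj p g := by
      rcases sv_nt hh (sv_a Q.h1) Q.ta.1 with e | e
      · exact e ▸ av_y Q.ha
      · rcases sv_nt hh (sv_b Q.h1) Q.tb.1 with e' | e'
        · exact e' ▸ av_y Q.hb
        · exact (Q.h1.n3.yz (e.trans e'.symm)).elim
    exact hno g h4 Q.ha.n3.xy.symm hg
  have hth : t ≠ h := by
    rintro rfl
    exact fr_n1 F hF h2.1
  have hs2 : s2 ∈ Fr G c := sq2 F R
  rcases h7 with e | h7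
  · subst e
    refine hQ2 ⟨h, p, m, f, g, x, y, m', zx, zy, ⟨hl, h1, hth, h2.1, (sv_rm Q.h1).symm, hfh,
      h3.2.1, fun w hw hwh hwm => ?_⟩, Q, h3, h4, h6⟩
    rcases tB_or_tS F.mu1 (tA_nb tp hw) with h8 | h8
    · exact bareB h8
    · have N := n3_mk F.reg hl.2.2.1.symm h1 hw hth.symm hwh.symm hwm.symm
      have A : Av G c p h m w := ⟨tp.1, (frS F hF).1, (t1S F h2.1).1, h8.1, N⟩
      rcases F.f2 p h m w A tp (frS F hF) (t1S F h2.1) h8 with h9 | h9 | h9
      · have e : m = s2 := rmu F h9 (sv_rm hh)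
        exact (fr_n1 F hs2 (e ▸ h2.1)).elim
      · intro y' hy'
        exact Or.inl (rmu F hy' h9.symm)
      · have e : w = f := rmu F h9 (sv_rm Q.h1).symm
        subst e
        exact (hno w h3 hfh hw).elim
  · have key : ∀ y1 y2 n1 n2 u1 u2 z1 z2, t = y1 → L m y2 → G.Adj y1 n1 → G.Adj y2 n2 →
        tA G c n1 → tA G c n2 → N3 G n1 y1 u1 z1 → N3 G n2 y2 u2 z2 → Rm G c u1 u2 →
        tB G c z1 → tB G c z2 → False := by
      intro y1 y2 n1 n2 u1 u2 z1 z2 e k2 a1 a2 t1 t2 N1 N2 hu b1 b2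
      subst e
      have e1 : n1 = p := t1A F h2.1 t1 tp a1 h1.symm
      subst e1
      have e2 : h = u1 := by
        rcases (N1.nb h).1 hl.2.2.1.symm with e | e | e
        · exact (hth e.symm).elim
        · exact e
        · exact (tB_not_tS b1 (e ▸ frS F hF)).elim
      have e3 : s2 = u2 := rmu F (sv_rm hh) (e2 ▸ hu)
      have h8 : G.Adj s2 n2 := by
        rw [e3]
        exact ((N2.nb u2).2 (Or.inr (Or.inl rfl))).symm
      have h9 : G.Adj n2 s1 := by
        rcases sv_nt R.h2 h8 t2.1 with e | e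
        · exact e ▸ av_x R.ha
        · exact e ▸ av_x R.hb
      have f1 : s1 ∈ Fr G c := sq1 F R
      rcases (N2.nb s1).1 h9 with e | e | e
      · exact fr_n1 F f1 (e ▸ (F.lx.src m y2 k2).1)
      · exact R.ha.n3.xy (e.trans e3.symm)
      · exact tB_not_tS b2 (e ▸ frS F f1)
    rcases F.lx.two m t h7 with ⟨y', n, k1, k2, k3, k4⟩ |
      ⟨w0, p0, y1, y2, n1, n2, u1, u2, z1, z2, T, t1, t2, k1, N1, N2, hu, f1, f2, b1, b2⟩
    · have e : t = y' := (k1 t).1 h7
      subst e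
      have e1 : n = p := t1A F h2.1 k3 tp k2 h1.symm
      subst e1
      exact k4 h hF hl.2.2.1.symm
    · have a1 : G.Adj y1 n1 := (T.nx.nb n1).2 (by tauto)
      have a2 : G.Adj y2 n2 := (T.nx'.nb n2).2 (by tauto)
      rcases (k1 t).1 h7 with e | e
      · exact key y1 y2 n1 n2 u1 u2 z1 z2 e ((k1 y2).2 (Or.inr rfl)) a1 a2 t1 t2 N1 N2 hu b1 b2
      · exact key y2 y1 n2 n1 u2 u1 z2 z1 e ((k1 y1).2 (Or.inl rfl)) a2 a1 t2 t1 N2 N1 hu.symm
          b2 b1

/-- own slot or SPOIL at the `A`-neighbour `p` of `h`, the live free mate of `s2` in a square -/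
theorem sp3 (GSP : ST_GSP) {s1 s2 a b v1 h z zb p q : V} (R : Sqg G c s1 s2 a b v1 h z zb)
    (hh : Sv G c h s2 p q) (tp : tA G c p) (tq : tA G c q)
    (hno : ∀ g, Live G c H g → g ≠ h → ¬ G.Adj p g) (hQ2 : ¬ Q2G G c H) :
    ∃ N : Finset (V × V), N.card ≤ 2 ∧ (LS G c H h p → (h, p) ∈ N) ∧
      ∀ f x, SpG G c L H p f → LS G c H f x → (f, x) ∈ N := by
  have hF : h ∈ Fr G c := (sv_Fr F.mu1 hh).2 ⟨tp, tq⟩
  by_cases hl : LS G c H h p
  · exact ⟨{(h, p)}, by simp, fun _ => by simp, fun f x hs _ =>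
      (no_sp F R hh tp tq hno hQ2 hl hs).elim⟩
  by_cases hs : ∃ f0, SpG G c L H p f0
  swap
  · exact ⟨∅, by simp, fun h' => (hl h').elim, fun f x h' _ => (hs ⟨f, h'⟩).elim⟩
  obtain ⟨f0, hs⟩ := hs
  have hne : ∀ f, SpG G c L H p f → f ≠ h := by
    rintro f ⟨t, g, x, y, m, m', zx, zy, h1, h2, Q, h3, h4, h5, h6, h7⟩ e
    subst e
    have hg : G.Adj p g := by
      rcases sv_nt hh (sv_a Q.h1) Q.ta.1 with e | e
      · exact e ▸ av_y Q.ha
      · rcases sv_nt hh (sv_b Q.h1) Q.tb.1 with e' | e'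
        · exact e' ▸ av_y Q.hb
        · exact (Q.h1.n3.yz (e.trans e'.symm)).elim
    exact hno g h4 Q.ha.n3.xy.symm hg
  obtain ⟨M, hM, hM'⟩ := own2 F (H := H) f0
  refine ⟨M, hM, fun h' => (hl h').elim, fun f x h' hx => ?_⟩
  have e := GSP V G c j L H F h p f f0 hF tp (sv_a hh).symm (hne f h') (hne f0 hs) h' hs
  subst e
  exact hM' x hx

end facts

end Pool.Agent.Helper68.MC
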