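import Mathlib
import Pool.Agent.Helper68.MC.W3
import Pool.Agent.Helper86.MC.LN
import Pool.Agent.Helper33.MC.GLoss

/-!
MP_4042d8_co, section D, part II, Case 3a: an intact square with a live free mate `h` which is not
in an intact square.
-/

set_option autoImplicit false
set_option linter.unusedSectionVars false
set_option linter.unusedVariables false

namespace Pool.Agent.Helper68.MC

open Pool.Agent.Helper27.MC hiding Fr T1 ter
open Pool.Agent.Helper51.MC Pool.Agent.Helper88.MC Pool.Agent.Helper64.MC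
open Pool.Agent.Helper33.MC
open Pool.Agent.Helper79.MC (Sqg KP Cw)
open Pool.Agent.Helper91.MC.GK (Khb)
open Pool.Agent.Helper96.MC (Td Apx Lx Exm Bd Lp Lpp)
open Pool.Agent.Helper91.MC (mem_Fr mem_T1 mem_Dd sv_ex sv_swap sv_rm sv_Fr sv_T1 sv_tS av_ex tA_or_tQ
  tB_or_tS tA_not_tQ)
open Pool.Agent.Helper88.MC.DB (ctf sv_m sv_a sv_b sv_nf sv_nt av_x av_y av_z tA_nb tB_nb
  tB_not_tS)

variable {V : Type} [Fintype V] [DecidableEq V] {G : SimpleGraph V} [DecidableRel G.Adj]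
  {c : V → Bool} {j : ℕ} {L : V → V → Prop} {H H' : Finset V}

section facts

variable (F : FxG G c j L)
include F

/-- the third neighbours of the hubs of a square with `v2` free -/
theorem c3_z {s1 s2 a b v1 h z zb : V} (R : Sqg G c s1 s2 a b v1 h z zb) (fh : h ∈ Fr G c) :
    (tB G c z ∨ (z = v1 ∧ v1 ∈ T1 G c)) ∧ (tB G c zb ∨ (zb = v1 ∧ v1 ∈ T1 G c)) := by
  constructor
  · rcases R.ka with h1 | h1 | h1
    · exact Or.inl h1
    · exact Or.inr h1
    · exact (fr_n1 F fh h1.2).elim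
  · rcases R.kb with h1 | h1 | h1
    · exact Or.inl h1
    · exact Or.inr h1
    · exact (fr_n1 F fh h1.2).elim

/-- `h` is not adjacent to the hubs -/
theorem c3_ha {s1 s2 a b v1 h z zb : V} (R : Sqg G c s1 s2 a b v1 h z zb) (fh : h ∈ Fr G c) :
    ¬ G.Adj a h ∧ ¬ G.Adj b h ∧ h ≠ s1 ∧ h ≠ v1 := by
  have e1 : h ≠ s1 := by
    rintro rfl
    exact R.n12 (sv_rm R.h2).symm
  have e2 : h ≠ v1 := by
    rintro rfl
    exact R.ha.n3.xy (rmu F (sv_rm R.h1).symm (sv_rm R.h2).symm)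
  have key : ∀ w, (tB G c w ∨ (w = v1 ∧ v1 ∈ T1 G c)) → h ≠ w := by
    rintro w (h1 | h1) rfl
    · exact tB_not_tS h1 (frS F fh)
    · exact e2 h1.1
  obtain ⟨z1, z2⟩ := c3_z F R fh
  refine ⟨fun h1 => ?_, fun h1 => ?_, e1, e2⟩
  · rcases (R.ha.n3.nb h).1 h1 with e | e | e
    · exact e1 e
    · exact (sv_m R.h2).ne e.symm
    · exact key z z1 e
  · rcases (R.hb.n3.nb h).1 h1 with e | e | e
    · exact e1 e
    · exact (sv_m R.h2).ne e.symm
    · exact key zb z2 e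

/-- the two operations -/
theorem c3_ops {s1 s2 a b v1 h z zb p q : V} (R : Sqg G c s1 s2 a b v1 h z zb)
    (hh : Sv G c h s2 p q) (tp : tA G c p) (tq : tA G c q) (c1 : Clr G H s1) (ca : Clr G H a)
    (ch : Clr G H h) :
    OpU G c H (H ∪ {h, p, q}) ∧
      OpN G c (H ∪ {h, p, q}) (H ∪ {h, p, q} ∪ {s1, b, s2, a, z}) ∧
      Bare G c (H ∪ {h, p, q}) s1 s2 ∧ Bare G c (H ∪ {h, p, q}) s1 z := by
  have fh : h ∈ Fr G c := (sv_Fr F.mu1 hh).2 ⟨tp, tq⟩
  obtain ⟨na, nb, n1, n2⟩ := c3_ha F R fh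
  have hs2 : h ≠ s2 := (sv_m R.h2).ne.symm
  have hK : ∀ w, w ∉ H → w ≠ h → w ≠ p → w ≠ q → w ∉ H ∪ {h, p, q} := by
    intro w h0 h1 h2 h3 h4
    simp only [Finset.mem_union, Finset.mem_insert, Finset.mem_singleton] at h4
    tauto
  have hF : ∀ w, w ∉ H → w ≠ h → c w = false → w ∉ H ∪ {h, p, q} := by
    intro w h0 h1 h2
    refine hK w h0 h1 ?_ ?_
    · rintro rfl
      exact ctf tp.1 h2
    · rintro rfl
      exact ctf tq.1 h2
  have hT : ∀ w, w ∉ H → c w = true → ¬ G.Adj w h → w ∉ H ∪ {h, p, q} := by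
    intro w h0 h1 h2
    refine hK w h0 ?_ ?_ ?_
    · rintro rfl
      exact ctf h1 hh.cs
    · rintro rfl
      exact h2 (sv_a hh).symm
    · rintro rfl
      exact h2 (sv_b hh).symm
  have b1 : Bare G c (H ∪ {h, p, q}) s1 s2 := by
    intro y hy
    right
    rw [sv_mateG F R.h2 hy]
    simp
  have b2 : Bare G c (H ∪ {h, p, q}) s1 z := by
    rcases (c3_z F R fh).1 with h1 | h1
    · exact bareB h1
    · intro y hy
      rw [h1.1] at hy
      exact Or.inl (rmu F hy (sv_rm R.h1).symm)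
  refine ⟨⟨h, s2, p, q, hh, tp, tq, ch, rfl⟩,
    ⟨s1, v1, a, b, s2, z, R.h1, R.ha, R.ta, R.tb, ⟨?_, ?_⟩, ⟨?_, ?_⟩, b1, b2, rfl⟩, b1, b2⟩
  · exact hF s1 c1.1 n1.symm R.h1.cs
  · intro w hw
    rcases (R.h1.n3.nb w).1 hw with e | e | e
    · subst e
      exact hF w (c1.2 w hw) n2.symm R.h1.cm
    · subst e
      exact hT w (c1.2 w hw) R.ta.1 na
    · subst e
      exact hT w (c1.2 w hw) R.tb.1 nb
  · exact hT a ca.1 R.ta.1 na
  · intro w hw
    refine hF w (ca.2 w hw) ?_ (tA_nb R.ta hw)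
    rintro rfl
    exact na hw

/-- the second operation `N(s1,a)` after `U(h)`: at most 12 -/
theorem c3_N (GW : ST_GW) (hQ : ¬ Q0G G c H) {s1 s2 a b v1 h z zb p q : V}
    (R : Sqg G c s1 s2 a b v1 h z zb) (hh : Sv G c h s2 p q) (tp : tA G c p) (tq : tA G c q)
    (hl : LS G c H s1 a) (ch : Clr G H h) :
    LossG G c L (H ∪ {h, p, q}) (H ∪ {h, p, q} ∪ {s1, b, s2, a, z}) 12 2 := by
  have fh : h ∈ Fr G c := (sv_Fr F.mu1 hh).2 ⟨tp, tq⟩
  obtain ⟨-, -, b1, b2⟩ := c3_ops F R hh tp tq hl.cf hl.cx ch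
  obtain ⟨na, nb, n1, n2⟩ := c3_ha F R fh
  obtain ⟨z1, z2⟩ := c3_z F R fh
  have f1 := sq1 F R
  have f2 := sq2 F R
  have hsub : H ⊆ H ∪ {h, p, q} := Finset.subset_union_left
  have dead2 : ¬ Clr G (H ∪ {h, p, q}) s2 := fun h1 => h1.2 h (sv_m R.h2) (by simp)
  have hz : tB G c z ∨ z = v1 := z1.imp_right (fun h => h.1)
  obtain ⟨LA, LQ, w1, w2, w3⟩ := w3 F GW hQ R hl hz
  have hx : Cw G c 0 (Pool.Agent.Helper86.MC.WA G c (H ∪ {h, p, q}) s1 v1 a s2)
      (Pool.Agent.Helper86.MC.WB G c (H ∪ {h, p, q}) s1 v1 s2) := by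
    refine Cw.none ?_ ?_
    · rintro f x ⟨k1, k2, k3, k4, k5⟩
      have e : x = b := by
        rcases sv_nt R.h2 k2.symm k1.ta.1 with e | e
        · exact (k3 e).elim
        · exact e
      subst e
      rcases (R.hb.n3.nb f).1 k1.adj.symm with e | e | e
      · exact k4 e
      · subst e
        exact dead2 k1.cf
      · subst e
        rcases z2 with h1 | h1
        · exact tB_not_tS h1 (frS F k1.fr)
        · exact k5 h1.1
    · rintro t ⟨f, v', x, y, t', q1, q', k, k', K, k1, k2, k3, k4, k5⟩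
      have ck : c k = true := by rw [K.q1.2, K.h1.cb]
      exact fr_noQ F f2 k3.symm ⟨ck, mu_of_rm F.mu1 K.q1.symm⟩
  have hy : Cw G c 4 (Pool.Agent.Helper86.MC.WA G c (H ∪ {h, p, q}) s1 v1 a z)
      (Pool.Agent.Helper86.MC.WB G c (H ∪ {h, p, q}) s1 v1 z) := by
    refine ⟨LA, LQ, w1, ?_, ?_⟩
    · rintro f x ⟨k1, k2, k3, k4, k5⟩
      exact w2 f x (k1.mono hsub) k2 k3 k4 k5
    · rintro t ⟨f, v', x, y, t', q1, q', k, k', K, k1, k2, k3, k4, k5⟩
      exact Or.inl (w3 t f v' x y t' q1 q' k k' K (k1.mono hsub) (k2.mono hsub) k3 k4 k5)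
  have hs : Cw G c 0 (fun f x => LS G c (H ∪ {h, p, q}) f x ∧ f ≠ s1 ∧ f ≠ v1 ∧
      SpG G c L (H ∪ {h, p, q}) b f) (fun _ => False) := by
    refine Cw.none ?_ (fun _ h => h)
    rintro f x ⟨k1, k2, k3, t, g, x', y', m, m', zx, zy, h1, h2, Q, h3, h4, h5, h6, h7⟩
    have e : t = v1 := by
      rcases (R.hb.n3.nb t).1 h1 with e | e | e
      · exact (fr_n1 F f1 (e ▸ h2.1)).elim
      · exact (fr_n1 F f2 (e ▸ h2.1)).elim
      · rcases z2 with h8 | h8
        · exact (tB_not_tS h8 (e ▸ t1S F h2.1)).elim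
        · exact e.trans h8.1
    subst e
    rcases h7 with e | h7
    · subst e
      exact k2 (rmu F (sv_rm Q.h1).symm (sv_rm R.h1).symm)
    · exact src_mate F h7 (sv_rm R.h1).symm f1
  refine ⟨?_, ?_⟩
  · exact (Cw.card F.mu1 (Pool.Agent.Helper86.MC.cw_NG F R.h1 R.ha R.ta R.tb b1 b2 hx hy hs)).trans
      (by norm_num)
  · exact Pool.Agent.Helper86.MC.card_live_NG F R.h1 R.ha R.ta R.tb b1 b2

/-- Case 3a -/
theorem c3a (GW : ST_GW) (hPN : ¬ PN G c H) (hQ2 : ¬ Q2G G c H) {s1 s2 a b v1 h z zb p q : V}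
    (R : Sqg G c s1 s2 a b v1 h z zb) (L1 : Live G c H s1) (L2 : Live G c H s2)
    (hl : LS G c H s1 a) (Lh : Live G c H h) (hh : Sv G c h s2 p q) (tp : tA G c p)
    (tq : tA G c q) (hno : ∀ g, Live G c H g → g ≠ h → ¬ (G.Adj p g ∨ G.Adj q g)) :
    ∃ H1 H', OpU G c H H1 ∧ OpN G c H1 H' ∧ LossG G c L H H' 24 5 := by
  have hQ : ¬ Q0G G c H := fun h => hPN (q0_pn F h)
  obtain ⟨o1, o2, -, -⟩ := c3_ops F R hh tp tq hl.cf hl.cx Lh.2
  have hN := c3_N F GW hQ R hh tp tq hl Lh.2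
  obtain ⟨Np, p1, p2, p3⟩ := sp3 F st_GSP R hh tp tq
    (fun g h1 h2 h3 => hno g h1 h2 (Or.inl h3)) hQ2
  obtain ⟨Nq, q1, q2, q3⟩ := sp3 F st_GSP R (sv_swap hh) tq tp
    (fun g h1 h2 h3 => hno g h1 h2 (Or.inr h3)) hQ2
  have own : ∀ x, LS G c H h x → (h, x) ∈ Np ∪ Nq := by
    intro x hx
    rcases sv_nt hh hx.adj hx.ta.1 with e | e
    · subst e
      exact Finset.mem_union_left _ (p2 hx)
    · subst e
      exact Finset.mem_union_right _ (q2 hx)
  have noP : ∀ f, Live G c H f → ¬ Ptn G c h p q f := fun f hf hp => hno f hf hp.2.1 (Or.inl hp.2.2.1)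
  have hU : LossG G c L H (H ∪ {h, p, q}) 12 2 := by
    constructor
    · have hcw : Cw G c 12
          (fun f x => ((f, x) ∈ Np ∪ Nq ∨ False) ∨ (f = s2 ∧ LS G c H f x))
          (fun t => (∃ f x, KP G c t f x ∧ (f, x) ∈ Np ∪ Nq) ∨
            ∃ x, KP G c t s2 x ∧ LS G c H s2 x) := by
        have h8 : Cw G c 8 (fun f x => (f, x) ∈ Np ∪ Nq ∨ False)
            (fun t => ∃ f x, KP G c t f x ∧ (f, x) ∈ Np ∪ Nq) := by
          refine ⟨Np ∪ Nq, ∅, ?_, fun f x h => h.elim id False.elim, fun t h => Or.inr h⟩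
          have := Finset.card_union_le Np Nq
          simp only [Finset.card_empty]
          omega
        exact (h8.or (Cw.fst F.reg F.mu1 H s2)).mono (by norm_num) (fun _ _ h => h)
          (fun _ h => h)
      refine Cw.card F.mu1 (hcw.mono le_rfl ?_ ?_)
      · rintro f x ⟨hg, hn⟩
        have hx := hg.ls
        rcases loss_UG F hh tp tq Lh.2 hg hn with e | e | e | e | e | e
        · subst e
          exact Or.inl (Or.inl (own x hx))
        · exact Or.inr ⟨e, hx⟩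
        · exact (noP f hx.lv e).elim
        · exact Or.inl (Or.inl (Finset.mem_union_left _ (p3 f x e hx)))
        · exact Or.inl (Or.inl (Finset.mem_union_right _ (q3 f x e hx)))
        · obtain ⟨s', a', b', m, e', za', zb', e'', z', y', k, zx, zy, Q, l1, -⟩ := e
          exfalso
          refine hno s' l1 Q.ha.n3.xy.symm ?_
          rcases sv_nt hh (sv_a Q.h1) Q.ta.1 with h1 | h1
          · exact Or.inl (h1 ▸ av_y Q.ha)
          · exact Or.inr (h1 ▸ av_y Q.ha)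
      · rintro t ⟨⟨f, v', x, y, t', q5, q', k, k', K, k1, k2⟩, k3⟩
        rcases loss_UB F hh tp tq Lh.2 K k1 k2 k3 with e | e | e
        · subst e
          exact Or.inl ⟨f, x, ⟨v', y, t', q5, q', k, k', K⟩, own x k1⟩
        · subst e
          exact Or.inr ⟨x, ⟨v', y, t', q5, q', k, k', K⟩, k1⟩
        · exact (noP f k1.lv e).elim
    · refine cov_live (((Cov.one h).or (Cov.one s2)).mono (fun g hg => ?_) le_rfl)
      rcases live_UG F hh tp tq hg.1 (fun h1 => hg.2 ⟨hg.1.1, h1⟩) with e | e | e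
      · exact Or.inl e
      · exact Or.inr e
      · exact (noP g hg.1 e).elim
  have hT := Pool.Agent.Helper79.MC.LossG.comp hU hN
  exact ⟨_, _, o1, o2, hT.1, hT.2.trans (by norm_num)⟩

end facts

end Pool.Agent.Helper68.MC
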