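import Mathlib
import Pool.Agent.Helper68.MC.C3A

/-!
MP_4042d8_co, section D, part II, Case 3: `h` in an intact square; row G_C3 from G_W.
-/

set_option autoImplicit false
set_option linter.unusedSectionVars false
set_option linter.unusedVariables false

namespace Pool.Agent.Helper68.MC

open Pool.Agent.Helper27.MC hiding Fr T1 ter
open Pool.Agent.Helper51.MC Pool.Agent.Helper88.MC Pool.Agent.Helper64.MC
open Pool.Agent.Helper33.MC
open Pool.Agent.Helper79.MC (Sqg KP Cw)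
open Pool.Agent.Helper91.MC.GK (Khb)
open Pool.Agent.Helper96.MC (Td Apx Lx Exm Bd Lp Lpp)
open Pool.Agent.Helper91.MC (mem_Fr mem_T1 mem_Dd sv_ex sv_swap sv_rm sv_Fr sv_T1 sv_tS av_ex tA_or_tQ
  tB_or_tS tA_not_tQ)
open Pool.Agent.Helper88.MC.DB (ctf sv_m sv_a sv_b sv_nf sv_nt av_x av_y av_z tA_nb tB_nb
  tB_not_tS)

variable {V : Type} [Fintype V] [DecidableEq V] {G : SimpleGraph V} [DecidableRel G.Adj]
  {c : V → Bool} {j : ℕ} {L : V → V → Prop} {H H' : Finset V}

section facts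

variable (F : FxG G c j L)
include F

/-- a free neighbour of a hub of a square is in the square -/
theorem sq_fr {s1 s2 a b v1 v2 za zb f x : V} (R : Sqg G c s1 s2 a b v1 v2 za zb)
    (hf : f ∈ Fr G c) (hx : x = a ∨ x = b) (h : G.Adj x f) : f = s1 ∨ f = s2 := by
  have key : ∀ w, (tB G c w ∨ (w = v1 ∧ v1 ∈ T1 G c) ∨ (w = v2 ∧ v2 ∈ T1 G c)) → f ≠ w := by
    rintro w (h1 | h1 | h1) rfl
    · exact tB_not_tS h1 (frS F hf)
    · exact fr_n1 F hf (h1.1 ▸ h1.2)
    · exact fr_n1 F hf (h1.1 ▸ h1.2)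
  rcases hx with e | e
  · subst e
    rcases (R.ha.n3.nb f).1 h with e | e | e
    · exact Or.inl e
    · exact Or.inr e
    · exact (key za R.ka e).elim
  · subst e
    rcases (R.hb.n3.nb f).1 h with e | e | e
    · exact Or.inl e
    · exact Or.inr e
    · exact (key zb R.kb e).elim

/-- a neighbour in `T1` of a hub of a square is the mate of a vertex of the square -/
theorem sq_t1 {s1 s2 a b v1 v2 za zb t x : V} (R : Sqg G c s1 s2 a b v1 v2 za zb)
    (ht : t ∈ T1 G c) (hx : x = a ∨ x = b) (h : G.Adj x t) : t = v1 ∨ t = v2 := by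
  have f1 := sq1 F R
  have f2 := sq2 F R
  have key : ∀ w, (tB G c w ∨ (w = v1 ∧ v1 ∈ T1 G c) ∨ (w = v2 ∧ v2 ∈ T1 G c)) → t = w →
      t = v1 ∨ t = v2 := by
    rintro w (h1 | h1 | h1) rfl
    · exact (tB_not_tS h1 (t1S F ht)).elim
    · exact Or.inl h1.1
    · exact Or.inr h1.1
  rcases hx with e | e
  · subst e
    rcases (R.ha.n3.nb t).1 h with e | e | e
    · exact (fr_n1 F f1 (e ▸ ht)).elim
    · exact (fr_n1 F f2 (e ▸ ht)).elim
    · exact key za R.ka e
  · subst e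
    rcases (R.hb.n3.nb t).1 h with e | e | e
    · exact (fr_n1 F f1 (e ▸ ht)).elim
    · exact (fr_n1 F f2 (e ▸ ht)).elim
    · exact key zb R.kb e

/-- SPOIL at a hub of a square concerns only the vertices of the square -/
theorem sq_sp {s1 s2 a b v1 v2 za zb f x : V} (R : Sqg G c s1 s2 a b v1 v2 za zb)
    (hx : x = a ∨ x = b) (h : SpG G c L H x f) : f = s1 ∨ f = s2 := by
  obtain ⟨t, g, x', y', m, m', zx, zy, h1, h2, Q, h3, h4, h5, h6, h7⟩ := h
  have f1 := sq1 F R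
  have f2 := sq2 F R
  rcases sq_t1 F R h2.1 hx h1 with e | e
  · subst e
    rcases h7 with e | h7
    · subst e
      exact Or.inl (rmu F (sv_rm Q.h1).symm (sv_rm R.h1).symm)
    · exact (src_mate F h7 (sv_rm R.h1).symm f1).elim
  · subst e
    rcases h7 with e | h7
    · subst e
      exact Or.inr (rmu F (sv_rm Q.h1).symm (sv_rm R.h2).symm)
    · exact (src_mate F h7 (sv_rm R.h2).symm f2).elim

/-- the square of EfG -/
theorem ef_eq {h g p q s2 m z1 z2 f : V} {H1 : Finset V} (R1 : Sqg G c h g p q s2 m z1 z2)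
    (hE : EfG G c L H H1 h f) :
    ∃ o x0 y0 k zx zy, Sqg G c m o x0 y0 g k zx zy ∧ Live G c H1 m ∧ Live G c H1 o ∧
      ¬ Live G c H1 k ∧ (f = m ∨ (f = o ∧ ¬ Avl G c H1 k ∧ ∀ y', L k y' → ¬ Avl G c H1 y')) := by
  obtain ⟨s', a', b', mm, e, za', zb', o, x0, y0, k, zx, zy, Q, l1, Q2, l2, l3, l4, l5⟩ := hE
  have e1 : s' = g := by
    rcases sq_fr F R1 l1.1 (sv_nt R1.h1 (sv_a Q.h1) Q.ta.1) (av_y Q.ha) with e | e
    · exact (Q.ha.n3.xy e.symm).elim
    · exact e
  subst e1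
  have e2 : e = m := rmu F (sv_rm Q.h2) (sv_rm R1.h2)
  subst e2
  exact ⟨o, x0, y0, k, zx, zy, Q2, l2, l3, l4, l5⟩

/-- the partner is unique -/
theorem sq_pu {m o o' x0 y0 x0' y0' g g' k k' zx zy zx' zy' : V}
    (R : Sqg G c m o x0 y0 g k zx zy) (R' : Sqg G c m o' x0' y0' g' k' zx' zy') : o' = o := by
  rcases sq_fr F R (sq2 F R') (sv_nt R.h1 (sv_a R'.h1) R'.ta.1) (av_y R'.ha) with e | e
  · exact (R'.ha.n3.xy e.symm).elim
  · exact e

/-- the first operation `U(h)`, `h` in a square -/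
theorem c3_U {h g p q s2 m z1 z2 : V} (R1 : Sqg G c h g p q s2 m z1 z2) (ch : Clr G H h)
    {n0 e : ℕ}
    (h0 : Cw G c n0 (fun f x => (f = h ∨ f = g) ∧ LS G c H f x) (fun _ => False))
    (hE : Cw G c e (fun f x => LS G c H f x ∧ EfG G c L H (H ∪ {h, p, q}) h f)
      (fun _ => False)) :
    LossG G c L H (H ∪ {h, p, q}) (n0 + 4 + e) 3 := by
  have hh := R1.h1
  have tp := R1.ta
  have tq := R1.tb
  have pt : ∀ f, Ptn G c h p q f → f = g := by
    intro f hp
    rcases sq_fr F R1 hp.1 (Or.inl rfl) hp.2.2.1 with e | e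
    · exact (hp.2.1 e).elim
    · exact e
  have nk : ∀ s, (s = h ∨ s = g) → ∀ v' x y t t' q1 q' k k',
      ¬ Khb G c s v' x y t t' q1 q' k k' := by
    intro s hs v' x y t t' q1 q' k k' K
    have hx : x = p ∨ x = q := by
      rcases hs with e | e
      · subst e
        exact sv_nt R1.h1 (sv_a K.hu) K.ta.1
      · subst e
        exact sv_nt R1.h2 (sv_a K.hu) K.ta.1
    have hadj : ∀ w, (w = h ∨ w = g) → G.Adj x w := by
      intro w hw
      rcases hx with e | e <;> subst e <;> rcases hw with e | e <;> subst e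
      · exact av_x R1.ha
      · exact av_y R1.ha
      · exact av_x R1.hb
      · exact av_y R1.hb
    have f1 := sq1 F R1
    have f2 := sq2 F R1
    have tt := Pool.Agent.Helper79.MC.khb_T1 F.mu1 K
    have tt' := Pool.Agent.Helper79.MC.khb_T1 F.mu1 K.symm
    have key : ∀ w, w ∈ Fr G c → G.Adj x w → w = s := by
      intro w hw h1
      rcases (K.ha.n3.nb w).1 h1 with e | e | e
      · exact e
      · exact (fr_n1 F hw (e ▸ tt)).elim
      · exact (fr_n1 F hw (e ▸ tt')).elim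
    exact R1.ha.n3.xy ((key h f1 (hadj h (Or.inl rfl))).trans
      (key g f2 (hadj g (Or.inr rfl))).symm)
  constructor
  · refine Cw.card F.mu1 (((h0.or (Cw.fst F.reg F.mu1 H s2)).or hE).mono le_rfl ?_ ?_)
    · rintro f x ⟨hg, hn⟩
      have hx := hg.ls
      rcases loss_UG F hh tp tq ch hg hn with e | e | e | e | e | e
      · exact Or.inl (Or.inl ⟨Or.inl e, hx⟩)
      · exact Or.inl (Or.inr ⟨e, hx⟩)
      · exact Or.inl (Or.inl ⟨Or.inr (pt f e), hx⟩)
      · exact Or.inl (Or.inl ⟨sq_sp F R1 (Or.inl rfl) e, hx⟩)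
      · exact Or.inl (Or.inl ⟨sq_sp F R1 (Or.inr rfl) e, hx⟩)
      · exact Or.inr ⟨hx, e⟩
    · rintro t ⟨⟨f, v', x, y, t', q5, q', k, k', K, k1, k2⟩, k3⟩
      rcases loss_UB F hh tp tq ch K k1 k2 k3 with e | e | e
      · exact (nk f (Or.inl e) v' x y t t' q5 q' k k' K).elim
      · subst e
        exact Or.inl (Or.inr ⟨x, ⟨v', y, t', q5, q', k, k', K⟩, k1⟩)
      · exact (nk f (Or.inr (pt f e)) v' x y t t' q5 q' k k' K).elim
  · exact cov_live (cov_U_liveG F hh tp tq)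

/-- the slots of the two vertices of a square: 8 -/
theorem c3_own (h g : V) :
    Cw G c 8 (fun f x => (f = h ∨ f = g) ∧ LS G c H f x) (fun _ => False) := by
  refine ((Cw.fst F.reg F.mu1 H h).or (Cw.fst F.reg F.mu1 H g)).mono (by norm_num) ?_
    (fun _ h => h.elim)
  rintro f x ⟨e | e, h1⟩
  · exact Or.inl ⟨e, h1⟩
  · exact Or.inr ⟨e, h1⟩

/-- the second operation when `v1` is not live: at most 8 -/
theorem c3_N2 (GW : ST_GW) (hQ : ¬ Q0G G c H) {s1 s2 a b v1 h z zb p q : V}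
    (R : Sqg G c s1 s2 a b v1 h z zb) (hh : Sv G c h s2 p q) (tp : tA G c p) (tq : tA G c q)
    (hl : LS G c H s1 a) (ch : Clr G H h) (hv : ¬ Live G c H v1) :
    LossG G c L (H ∪ {h, p, q}) (H ∪ {h, p, q} ∪ {s1, b, s2, a, z}) 8 2 := by
  have fh : h ∈ Fr G c := (sv_Fr F.mu1 hh).2 ⟨tp, tq⟩
  obtain ⟨-, -, b1, b2⟩ := c3_ops F R hh tp tq hl.cf hl.cx ch
  obtain ⟨na, nb, n1, n2⟩ := c3_ha F R fh
  obtain ⟨z1, z2⟩ := c3_z F R fh
  have f1 := sq1 F R
  have f2 := sq2 F R
  have hsub : H ⊆ H ∪ {h, p, q} := Finset.subset_union_left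
  have dead2 : ¬ Clr G (H ∪ {h, p, q}) s2 := fun h1 => h1.2 h (sv_m R.h2) (by simp)
  have hz : tB G c z ∨ z = v1 := z1.imp_right (fun h => h.1)
  have nv : ∀ f x, LS G c (H ∪ {h, p, q}) f x → f ≠ v1 := by
    rintro f x hx rfl
    exact hv (hx.lv.mono hsub)
  obtain ⟨LA, LQ, w1, w2, w3⟩ := w3 F GW hQ R hl hz
  have hcw : Cw G c 8 (fun f x => (f = s1 ∧ LS G c (H ∪ {h, p, q}) f x) ∨ (f, x) ∈ LA)
      (fun t => (∃ x, KP G c t s1 x ∧ LS G c (H ∪ {h, p, q}) s1 x) ∨ t ∈ LQ) := by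
    refine ((Cw.fst F.reg F.mu1 (H ∪ {h, p, q}) s1).or (n' := 4) (A' := fun f x => (f, x) ∈ LA)
      (B' := fun t => t ∈ LQ) ⟨LA, LQ, w1, fun _ _ h => h, fun _ h => Or.inl h⟩).mono
      (by norm_num) (fun _ _ h => h) (fun _ h => h)
  refine ⟨?_, Pool.Agent.Helper86.MC.card_live_NG F R.h1 R.ha R.ta R.tb b1 b2⟩
  refine Cw.card F.mu1 (hcw.mono le_rfl ?_ ?_)
  · rintro f x ⟨hg, hn⟩
    have hx := hg.ls
    by_cases e1 : f = s1
    · exact Or.inl ⟨e1, hx⟩
    rcases Pool.Agent.Helper86.MC.loss_NG F R.h1 R.ha R.ta R.tb b1 b2 hg hn with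
      e | e | e | e | e
    · exact (e1 e).elim
    · exact (nv f x hx e).elim
    · rcases sq_sp F R (Or.inr rfl) e with e | e
      · exact (e1 e).elim
      · subst e
        exact (dead2 hx.cf).elim
    · exfalso
      have e2 : x = b := by
        rcases sv_nt R.h2 e.1.symm hx.ta.1 with e2 | e2
        · exact (e.2 e2).elim
        · exact e2
      rcases sq_fr F R hx.fr (Or.inr e2) hx.adj.symm with e | e
      · exact e1 e
      · subst e
        exact dead2 hx.cf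
    · exact Or.inr (w2 f x (hx.mono hsub) e.1 e.2 e1 (nv f x hx))
  · rintro t ⟨⟨f, v', x, y, t', q5, q', k, k', K, k1, k2⟩, k3⟩
    by_cases e1 : f = s1
    · subst e1
      exact Or.inl ⟨x, ⟨v', y, t', q5, q', k, k', K⟩, k1⟩
    rcases Pool.Agent.Helper86.MC.branch_NG F R.h1 R.ha R.ta R.tb b1 b2 K k1 k2 k3 with
      e | e | e | e
    · exact (e1 e).elim
    · exact (nv f x k1 e).elim
    · have ck : c k = true := by rw [K.q1.2, K.h1.cb]
      exact (fr_noQ F f2 e.symm ⟨ck, mu_of_rm F.mu1 K.q1.symm⟩).elim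
    · exact Or.inr (w3 t f v' x y t' q5 q' k k' K (k1.mono hsub) (k2.mono hsub) e e1 (nv f x k1))

/-- an available vertex of `T1` stays available when `U(g)` is done in a square whose vertices have
free mates -/
theorem c3_av {h g p q s2 m z1 z2 t : V} (R1 : Sqg G c h g p q s2 m z1 z2) (f2 : s2 ∈ Fr G c)
    (fm : m ∈ Fr G c) (ht : Avl G c H t) : Avl G c (H ∪ {g, p, q}) t := by
  refine ⟨ht.1, ?_⟩
  by_contra hn
  have cf := (t1S F ht.1).1
  rcases not_clr' ht.2 hn with h1 | ⟨w, h1, h2⟩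
  · simp only [Finset.mem_insert, Finset.mem_singleton] at h1
    rcases h1 with e | e | e
    · exact fr_n1 F (sq2 F R1) (e ▸ ht.1)
    · exact ctf R1.ta.1 (e ▸ cf)
    · exact ctf R1.tb.1 (e ▸ cf)
  · have key : ∀ x, (x = p ∨ x = q) → G.Adj x t → False := by
      intro x hx hxt
      rcases sq_t1 F R1 ht.1 hx hxt with e | e
      · exact fr_n1 F f2 (e ▸ ht.1)
      · exact fr_n1 F fm (e ▸ ht.1)
    simp only [Finset.mem_insert, Finset.mem_singleton] at h2
    rcases h2 with e | e | e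
    · subst e
      have := sv_nf R1.h2 h1.symm cf
      exact fr_n1 F fm (this ▸ ht.1)
    · exact key w (Or.inl e) h1.symm
    · exact key w (Or.inr e) h1.symm

end facts

/-- row G_C3 from G_W -/
theorem st_GC3 (GW : ST_GW) : ST_GC3 := by
  intro V _ _ G _ c j L H F hI hPN hQ2 hQ3
  obtain ⟨s1, s2, a, b, v1, h, z, zb, R, L1, L2, hl, Lh⟩ := hQ3
  have hQ : ¬ Q0G G c H := fun h => hPN (q0_pn F h)
  have f1 := sq1 F R
  have f2 := sq2 F R
  obtain ⟨na, nb, n1, n2⟩ := c3_ha F R Lh.1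
  obtain ⟨p, q, hh, tp, tq⟩ : ∃ p q, Sv G c h s2 p q ∧ tA G c p ∧ tA G c q := by
    obtain ⟨m, x, y, nb, cm, cx, cy, hxy, hmx, hmy⟩ :=
      Pool.Agent.Helper91.MC.s_data F.reg (frS F Lh.1)
    have hs : Sv G c h m x y := ⟨(frS F Lh.1).1, cm, cx, cy, ⟨nb, hmx, hmy, hxy⟩⟩
    have e : s2 = m := sv_mateG F hs (sv_rm R.h2).symm
    subst e
    exact ⟨x, y, hs, (sv_Fr F.mu1 hs).1 Lh.1⟩
  by_cases hg : ∃ g, Live G c H g ∧ g ≠ h ∧ (G.Adj p g ∨ G.Adj q g)
  swap
  · exact c3a F GW hPN hQ2 R L1 L2 hl Lh hh tp tq (fun g h1 h2 h3 => hg ⟨g, h1, h2, h3⟩)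
  obtain ⟨g, Lg, hgh, hpg⟩ := hg
  -- the square of `h`
  have hpq : ∀ x, (x = p ∨ x = q) → G.Adj h x := by
    rintro x (e | e)
    · exact e ▸ sv_a hh
    · exact e ▸ sv_b hh
  have nab : ∀ s x, (s = s1 ∨ s = s2) → (x = p ∨ x = q) → ¬ G.Adj s x := by
    intro s x hs hx hsx
    have hxA : c x = true := by
      rcases hx with e | e
      · exact e ▸ tp.1
      · exact e ▸ tq.1
    have h1 : x = a ∨ x = b := by
      rcases hs with e | e
      · subst e
        exact sv_nt R.h1 hsx hxA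
      · subst e
        exact sv_nt R.h2 hsx hxA
    rcases h1 with e | e
    · subst e
      exact na (hpq x hx).symm
    · subst e
      exact nb (hpq x hx).symm
  obtain ⟨m, z1, z2, R1⟩ : ∃ m z1 z2, Sqg G c h g p q s2 m z1 z2 := by
    rcases fr_nearG F hh tp tq Lg.1 hpg with e | e | e
    · exact (hgh e).elim
    · exfalso
      rcases hpg with h1 | h1
      · exact nab g p (Or.inr e) (Or.inl rfl) h1.symm
      · exact nab g q (Or.inr e) (Or.inr rfl) h1.symm
    · refine ptn_sqg F e ?_ hh tp tq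
      intro e'
      exact nab g p (Or.inr e') (Or.inl rfl) e.2.2.1.symm
  have hgs1 : g ≠ s1 := fun e => nab g p (Or.inl e) (Or.inl rfl) (sv_a R1.h2)
  have hmg : Rm G c m g := (sv_rm R1.h2).symm
  obtain ⟨o1, o2, -, -⟩ := c3_ops F R hh tp tq hl.cf hl.cx Lh.2
  have hN := c3_N F GW hQ R hh tp tq hl Lh.2
  have fin : ∀ {H1 H' : Finset V} {x y : ℕ}, LossG G c L H H1 x 3 → LossG G c L H1 H' y 2 →
      x + y ≤ 24 → LossG G c L H H' 24 5 := by
    intro H1 H' x y h1 h2 h3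
    have h4 := Pool.Agent.Helper79.MC.LossG.comp h1 h2
    exact ⟨h4.1.trans h3, h4.2⟩
  by_cases hE : ∃ f x, LS G c H f x ∧ EfG G c L H (H ∪ {h, p, q}) h f
  swap
  · -- (i)
    have e0 : Cw G c 0 (fun f x => LS G c H f x ∧ EfG G c L H (H ∪ {h, p, q}) h f)
        (fun _ => False) := Cw.none (fun f x h => hE ⟨f, x, h⟩) (fun _ h => h)
    exact ⟨_, _, o1, o2, fin (c3_U F R1 Lh.2 (c3_own F h g) e0) hN (by norm_num)⟩
  obtain ⟨f0, x1, hls, hEf⟩ := hE
  obtain ⟨o, x0, y0, k, zx, zy, R2, l1, l2, l3, l4⟩ := ef_eq F R1 hEf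
  have mem1 : h ∈ H ∪ {h, p, q} := by simp
  have hm_s1 : m ≠ s1 := by
    rintro rfl
    have e : o = s2 := sq_pu F R R2
    subst e
    exact l2.2.2 h (sv_m R.h2) mem1
  have hoh : o ≠ h := by
    rintro rfl
    exact l2.2.1 mem1
  have hos2 : o ≠ s2 := by
    rintro rfl
    exact l2.2.2 h (sv_m R.h2) mem1
  have fm : m ∈ Fr G c := sq1 F R2
  have l1H : Live G c H m := l1.mono Finset.subset_union_left
  have l2H : Live G c H o := l2.mono Finset.subset_union_left
  -- `k` is not live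
  have nk : ¬ Live G c H k := by
    intro hk
    rcases live_UG F hh tp tq hk (fun h1 => l3 ⟨hk.1, h1⟩) with e | e | e
    · subst e
      exact hos2 (rmu F (sv_rm R2.h2).symm (sv_rm R.h2).symm)
    · subst e
      exact hoh (rmu F (sv_rm R2.h2).symm (sv_rm R.h2))
    · have e1 : k = g := by
        rcases sq_fr F R1 e.1 (Or.inl rfl) e.2.2.1 with e1 | e1
        · exact (e.2.1 e1).elim
        · exact e1
      subst e1
      exact R2.ha.n3.xy (rmu F hmg.symm (sv_rm R2.h2).symm)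
  by_cases hv : Live G c H v1 ∨ Avl G c H v1 ∨ ∃ y', L v1 y' ∧ Avl G c H y'
  · -- (ii)
    have hx1 : x1 = x0 ∨ x1 = y0 := by
      rcases l4 with e | e
      · subst e
        exact sv_nt R2.h1 hls.adj hls.ta.1
      · rw [e.1] at hls
        exact sv_nt R2.h2 hls.adj hls.ta.1
    have main : ∀ x0 y0 zx zy, Sqg G c m o x0 y0 g k zx zy → Clr G H x0 →
        ∃ H1 H', OpU G c H H1 ∧ OpN G c H1 H' ∧ LossG G c L H H' 24 5 := by
      intro x0 y0 zx zy R2 cx
      have R2' := R2.swap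
      have hlo : LS G c H o x0 := l2H.ls R2.ta (sv_a R2.h2) cx
      obtain ⟨o3, o4, -, -⟩ := c3_ops F R2' R1.h2 tp tq hlo.cf hlo.cx Lg.2
      have hN2 := c3_N2 F GW hQ R2' R1.h2 tp tq hlo Lg.2 nk
      have lv1 : Live G c H v1 → Live G c (H ∪ {g, p, q}) v1 := by
        intro h1
        refine ⟨h1.1, ?_⟩
        by_contra hn
        rcases live_UG F R1.h2 tp tq h1 hn with e | e | e
        · subst e
          exact hm_s1 (rmu F hmg.symm (sv_rm R.h1).symm)
        · subst e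
          exact hgs1 (rmu F hmg (sv_rm R.h1).symm)
        · rcases sq_fr F R1 e.1 (Or.inl rfl) e.2.2.1 with e1 | e1
          · exact n2 e1.symm
          · exact e.2.1 e1
      have hE' : Cw G c 4 (fun f x => LS G c H f x ∧ EfG G c L H (H ∪ {g, p, q}) g f)
          (fun _ => False) := by
        refine (Cw.fst F.reg F.mu1 H s2).mono le_rfl ?_ (fun _ h => h.elim)
        rintro f x ⟨h1, h2⟩
        refine ⟨?_, h1⟩
        obtain ⟨o', x0', y0', k', zx', zy', R3, m1, m2, m3, m4⟩ := ef_eq F R1.swap h2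
        have eo : o' = s1 := sq_pu F R.swap R3
        subst eo
        have ek : k' = v1 := rmu F (sv_rm R3.h2) (sv_rm R.h1)
        subst ek
        rcases m4 with e | ⟨-, m5, m6⟩
        · exact e
        · exfalso
          rcases hv with h5 | h5 | ⟨y', h5, h6⟩
          · exact m3 (lv1 h5)
          · exact m5 (c3_av F R1 f2 fm h5)
          · exact m6 y' h5 (c3_av F R1 f2 fm h6)
      exact ⟨_, _, o3, o4, fin (c3_U F R1.swap Lg.2 (c3_own F g h) hE') hN2 (by norm_num)⟩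
    rcases hx1 with e | e
    · exact main x0 y0 zx zy R2 (e ▸ hls.cx)
    · exact main y0 x0 zy zx R2.hub (e ▸ hls.cx)
  have nv : ¬ Live G c H v1 := fun h1 => hv (Or.inl h1)
  by_cases hlg : LS G c H g p ∨ LS G c H g q
  · -- (iii)
    have main : ∀ p q z1 z2, Sqg G c h g p q s2 m z1 z2 → LS G c H g p →
        ∃ H1 H', OpU G c H H1 ∧ OpN G c H1 H' ∧ LossG G c L H H' 24 5 := by
      intro p q z1 z2 R1 hgp
      obtain ⟨o3, o4, -, -⟩ := c3_ops F R1.swap R.h2 R.ta R.tb hgp.cf hgp.cx L2.2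
      have hN3 := c3_N F GW hQ R1.swap R.h2 R.ta R.tb hgp L2.2
      have hE' : Cw G c 0 (fun f x => LS G c H f x ∧ EfG G c L H (H ∪ {s2, a, b}) s2 f)
          (fun _ => False) := by
        refine Cw.none ?_ (fun _ h => h)
        rintro f x ⟨h1, h2⟩
        obtain ⟨o', x0', y0', k', zx', zy', R3, m1, m2, m3, m4⟩ := ef_eq F R.swap h2
        exact nv (m1.mono Finset.subset_union_left)
      exact ⟨_, _, o3, o4, fin (c3_U F R.swap L2.2 (c3_own F s2 s1) hE') hN3 (by norm_num)⟩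
    rcases hlg with e | e
    · exact main p q z1 z2 R1 e
    · exact main q p z2 z1 R1.hub e
  · -- (iv)
    have h0 : Cw G c 0 (fun f x => (f = h ∨ f = g) ∧ LS G c H f x) (fun _ => False) := by
      refine Cw.none ?_ (fun _ h => h)
      rintro f x ⟨h1, h2⟩
      have hx : x = p ∨ x = q := by
        rcases h1 with e | e
        · subst e
          exact sv_nt R1.h1 h2.adj h2.ta.1
        · subst e
          exact sv_nt R1.h2 h2.adj h2.ta.1
      rcases hx with e | e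
      · subst e
        exact hlg (Or.inl (Lg.ls tp (sv_a R1.h2) h2.cx))
      · subst e
        exact hlg (Or.inr (Lg.ls tq (sv_b R1.h2) h2.cx))
    have hE' : Cw G c 8 (fun f x => LS G c H f x ∧ EfG G c L H (H ∪ {h, p, q}) h f)
        (fun _ => False) := by
      refine (c3_own F (H := H) m o).mono le_rfl ?_ (fun _ h => h)
      rintro f x ⟨h1, h2⟩
      obtain ⟨o', x0', y0', k', zx', zy', R3, m1, m2, m3, m4⟩ := ef_eq F R1 h2
      have eo : o' = o := sq_pu F R2 R3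
      subst eo
      refine ⟨?_, h1⟩
      rcases m4 with e | e
      · exact Or.inl e
      · exact Or.inr e.1
    exact ⟨_, _, o1, o2, fin (c3_U F R1 Lh.2 h0 hE') hN (by norm_num)⟩

end Pool.Agent.Helper68.MC
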